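import Pool.Agent.H261R3.LH.Stmts

/-! Task NulUnif of the project LH: null-homotopies of Lipschitz loops with a uniform constant. -/

set_option autoImplicit false

open scoped NNReal

namespace Pool.Agent.H261R3.LH

namespace NulUnifH94

lemma clip_le_one (x : ℝ) : clip x ≤ 1 := by
  unfold clip
  exact max_le (by norm_num) (min_le_left _ _)

lemma clip_eq (x : ℝ) (h0 : 0 ≤ x) (h1 : x ≤ 1) : clip x = x := by
  unfold clip
  rw [min_eq_right h1, max_eq_right h0]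

lemma clip_lip (x y : ℝ) : |clip x - clip y| ≤ |x - y| := by
  unfold clip
  refine (abs_max_sub_max_le_max _ _ _ _).trans ?_
  refine max_le (by simp) ?_
  refine (abs_min_sub_min_le_max _ _ _ _).trans ?_
  exact max_le (by simp) le_rfl

variable {S : Type} [MetricSpace S]

/-- homotopies of loops with constant `C` -/
def Hom (p : S) (C : ℝ) (l : ℝ → S) : Prop :=
  ∃ (K : ℝ → ℝ → S), (∀ t, Lip1 C (fun h => K h t)) ∧ (∀ h, Lip1 C (fun t => K h t)) ∧
      (∀ h, 0 ≤ h → h ≤ 1 → K h 0 = l h) ∧ (∀ h, K h 1 = p) ∧ ∀ t, K 0 t = p ∧ K 1 t = p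

lemma Lip1_mono {C C' : ℝ} (h : C ≤ C') {f : ℝ → S} (hf : Lip1 C f) : Lip1 C' f := fun x y =>
  (hf x y).trans (mul_le_mul_of_nonneg_right h (abs_nonneg _))

lemma Hom_mono {p : S} {C C' : ℝ} (h : C ≤ C') {l : ℝ → S} (hl : Hom p C l) : Hom p C' l := by
  obtain ⟨K, h1, h2, h3⟩ := hl
  exact ⟨K, fun t => Lip1_mono h (h1 t), fun t => Lip1_mono h (h2 t), h3⟩

lemma perturb {m : ℕ} (ι : S → EuclideanSpace ℝ (Fin m)) (r : EuclideanSpace ℝ (Fin m) → S)
    (K : ℝ≥0) (ρ : ℝ) (hι : LipschitzWith K ι)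
    (hr : LipschitzOnWith K r (Metric.thickening ρ (Set.range ι))) (hri : ∀ x, r (ι x) = x)
    (p : S) (C ε C0 : ℝ) (hC : 0 ≤ C) (hε : 0 ≤ ε) (hKε : K * ε < ρ) (l l0 : ℝ → S)
    (hl : Lip1 C l) (hl0 : Lip1 C l0) (ha : l 0 = p) (hb : l 1 = p) (ha0 : l0 0 = p) (hb0 : l0 1 = p)
    (hd : ∀ x, 0 ≤ x → x ≤ 1 → dist (l x) (l0 x) ≤ ε) (h : Hom p C0 l0) :
    Hom p (K * (K * (C0 + 2 * C)) + K * (K * C0 + K * ε)) l := by
  obtain ⟨K0, h1, h2, h3, h4, h5⟩ := h
  have hC0 : 0 ≤ C0 := by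
    have := h1 0 0 1
    have h6 := dist_nonneg.trans this
    simpa using h6
  have hK : (0 : ℝ) ≤ K := K.2
  let A : ℝ → ℝ → EuclideanSpace ℝ (Fin m) := fun x t =>
    ι (K0 x t) + (1 - clip t) • (ι (l (clip x)) - ι (l0 (clip x)))
  have hw : ∀ x, ‖ι (l (clip x)) - ι (l0 (clip x))‖ ≤ K * ε := by
    intro x
    rw [← dist_eq_norm]
    refine (hι.dist_le_mul _ _).trans ?_
    exact mul_le_mul_of_nonneg_left (hd _ (clip_nonneg x) (clip_le_one x)) hK
  have hc : ∀ t, 0 ≤ 1 - clip t ∧ 1 - clip t ≤ 1 := by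
    intro t
    have h6 := clip_nonneg t
    have h7 := clip_le_one t
    constructor <;> linarith
  have hA : ∀ x t, A x t ∈ Metric.thickening ρ (Set.range ι) := by
    intro x t
    rw [Metric.mem_thickening_iff]
    refine ⟨ι (K0 x t), ⟨_, rfl⟩, ?_⟩
    rw [dist_eq_norm]
    have h6 : A x t - ι (K0 x t) = (1 - clip t) • (ι (l (clip x)) - ι (l0 (clip x))) := by
      simp [A]
    rw [h6, norm_smul, Real.norm_eq_abs, abs_of_nonneg (hc t).1]
    calc (1 - clip t) * ‖ι (l (clip x)) - ι (l0 (clip x))‖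
        ≤ 1 * (K * ε) := mul_le_mul (hc t).2 (hw x) (norm_nonneg _) zero_le_one
      _ < ρ := by rw [one_mul]; exact hKε
  have hAr : ∀ x t x' t', dist (r (A x t)) (r (A x' t')) ≤ K * ‖A x t - A x' t'‖ := by
    intro x t x' t'
    rw [← dist_eq_norm]
    exact hr.dist_le_mul _ (hA x t) _ (hA x' t')
  have hιn : ∀ a b : S, ‖ι a - ι b‖ ≤ K * dist a b := by
    intro a b
    rw [← dist_eq_norm]
    exact hι.dist_le_mul _ _
  have hlc : ∀ (f : ℝ → S), Lip1 C f → ∀ x x', ‖ι (f (clip x)) - ι (f (clip x'))‖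
      ≤ K * (C * |x - x'|) := by
    intro f hf x x'
    refine (hιn _ _).trans (mul_le_mul_of_nonneg_left ?_ hK)
    exact (hf _ _).trans (mul_le_mul_of_nonneg_left (clip_lip x x') hC)
  refine ⟨fun x t => r (A x t), ?_, ?_, ?_, ?_, ?_⟩
  · intro t x x'
    refine (hAr x t x' t).trans ?_
    have e : A x t - A x' t = (ι (K0 x t) - ι (K0 x' t))
        + (1 - clip t) • ((ι (l (clip x)) - ι (l (clip x')))
          - (ι (l0 (clip x)) - ι (l0 (clip x')))) := by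
      simp only [A, smul_sub]
      abel
    have n1 : ‖ι (K0 x t) - ι (K0 x' t)‖ ≤ K * (C0 * |x - x'|) :=
      (hιn _ _).trans (mul_le_mul_of_nonneg_left (h1 t x x') hK)
    have n2 : ‖(ι (l (clip x)) - ι (l (clip x'))) - (ι (l0 (clip x)) - ι (l0 (clip x')))‖
        ≤ K * (C * |x - x'|) + K * (C * |x - x'|) :=
      (norm_sub_le _ _).trans (add_le_add (hlc l hl x x') (hlc l0 hl0 x x'))
    have n3 : ‖A x t - A x' t‖ ≤ K * (C0 + 2 * C) * |x - x'| := by
      rw [e]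
      refine (norm_add_le _ _).trans ?_
      rw [norm_smul, Real.norm_eq_abs, abs_of_nonneg (hc t).1]
      have n4 : (1 - clip t) * ‖(ι (l (clip x)) - ι (l (clip x')))
          - (ι (l0 (clip x)) - ι (l0 (clip x')))‖
          ≤ 1 * (K * (C * |x - x'|) + K * (C * |x - x'|)) :=
        mul_le_mul (hc t).2 n2 (norm_nonneg _) zero_le_one
      calc _ ≤ K * (C0 * |x - x'|) + 1 * (K * (C * |x - x'|) + K * (C * |x - x'|)) :=
            add_le_add n1 n4
        _ = K * (C0 + 2 * C) * |x - x'| := by ring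
    calc K * ‖A x t - A x' t‖ ≤ K * (K * (C0 + 2 * C) * |x - x'|) :=
          mul_le_mul_of_nonneg_left n3 hK
      _ ≤ (K * (K * (C0 + 2 * C)) + K * (K * C0 + K * ε)) * |x - x'| := by
          have : 0 ≤ (K * (K * C0 + K * ε) : ℝ) * |x - x'| := by positivity
          nlinarith [this]
  · intro x t t'
    refine (hAr x t x t').trans ?_
    have e : A x t - A x t' = (ι (K0 x t) - ι (K0 x t'))
        + (clip t' - clip t) • (ι (l (clip x)) - ι (l0 (clip x))) := by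
      simp only [A, sub_smul, smul_sub, one_smul]
      abel
    have n1 : ‖ι (K0 x t) - ι (K0 x t')‖ ≤ K * (C0 * |t - t'|) :=
      (hιn _ _).trans (mul_le_mul_of_nonneg_left (h2 x t t') hK)
    have n3 : ‖A x t - A x t'‖ ≤ (K * C0 + K * ε) * |t - t'| := by
      rw [e]
      refine (norm_add_le _ _).trans ?_
      rw [norm_smul, Real.norm_eq_abs, abs_sub_comm (clip t') (clip t)]
      have n4 : |clip t - clip t'| * ‖ι (l (clip x)) - ι (l0 (clip x))‖ ≤ |t - t'| * (K * ε) :=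
        mul_le_mul (clip_lip t t') (hw x) (norm_nonneg _) (abs_nonneg _)
      calc _ ≤ K * (C0 * |t - t'|) + |t - t'| * (K * ε) := add_le_add n1 n4
        _ = (K * C0 + K * ε) * |t - t'| := by ring
    calc K * ‖A x t - A x t'‖ ≤ K * ((K * C0 + K * ε) * |t - t'|) :=
          mul_le_mul_of_nonneg_left n3 hK
      _ ≤ (K * (K * (C0 + 2 * C)) + K * (K * C0 + K * ε)) * |t - t'| := by
          have : 0 ≤ (K * (K * (C0 + 2 * C)) : ℝ) * |t - t'| := by positivity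
          nlinarith [this]
  · intro x hx0 hx1
    show r (A x 0) = l x
    have : A x 0 = ι (l x) := by
      simp only [A]
      rw [clip_eq 0 le_rfl zero_le_one, clip_eq x hx0 hx1, h3 x hx0 hx1]
      simp
    rw [this, hri]
  · intro x
    show r (A x 1) = p
    have : A x 1 = ι p := by
      simp only [A]
      rw [clip_eq 1 zero_le_one le_rfl, h4]
      simp
    rw [this, hri]
  · intro t
    constructor
    · show r (A 0 t) = p
      have : A 0 t = ι p := by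
        simp only [A]
        rw [clip_eq 0 le_rfl zero_le_one, (h5 t).1, ha, ha0]
        simp
      rw [this, hri]
    · show r (A 1 t) = p
      have : A 1 t = ι p := by
        simp only [A]
        rw [clip_eq 1 zero_le_one le_rfl, (h5 t).2, hb, hb0]
        simp
      rw [this, hri]

/-- two loops with the same code are close -/
lemma close_of_code (C δ : ℝ) (hC : 0 ≤ C) (N : ℕ) (hN : 0 < N) (c : Fin (N + 1) → S)
    (l l' : ℝ → S) (hl : Lip1 C l) (hl' : Lip1 C l')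
    (h1 : ∀ i : Fin (N + 1), dist (l ((i : ℕ) / N)) (c i) ≤ δ)
    (h2 : ∀ i : Fin (N + 1), dist (l' ((i : ℕ) / N)) (c i) ≤ δ)
    (x : ℝ) (hx0 : 0 ≤ x) (hx1 : x ≤ 1) : dist (l x) (l' x) ≤ 2 * δ + 2 * (C / N) := by
  have hN' : (0 : ℝ) < N := by exact_mod_cast hN
  have hi : ⌊x * N⌋₊ < N + 1 := by
    have : x * N ≤ N := by nlinarith
    have h3 : ⌊x * N⌋₊ ≤ ⌊(N : ℝ)⌋₊ := Nat.floor_mono this
    rw [Nat.floor_natCast] at h3
    omega
  have hx : |x - (⌊x * N⌋₊ : ℝ) / N| ≤ 1 / N := by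
    have a1 : (⌊x * N⌋₊ : ℝ) ≤ x * N := Nat.floor_le (by positivity)
    have a2 : x * N < (⌊x * N⌋₊ : ℝ) + 1 := Nat.lt_floor_add_one _
    have e : x - (⌊x * N⌋₊ : ℝ) / N = (x * N - ⌊x * N⌋₊) / N := by field_simp
    rw [e, abs_of_nonneg (div_nonneg (by linarith) hN'.le)]
    exact div_le_div_of_nonneg_right (by linarith) hN'.le
  have b : ∀ f : ℝ → S, Lip1 C f → dist (f x) (f ((⌊x * N⌋₊ : ℝ) / N)) ≤ C / N := by
    intro f hf
    refine (hf _ _).trans ?_
    calc C * |x - (⌊x * N⌋₊ : ℝ) / N| ≤ C * (1 / N) := mul_le_mul_of_nonneg_left hx hC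
      _ = C / N := by ring
  have b1 := b l hl
  have b2 := b l' hl'
  have c1 := h1 ⟨⌊x * N⌋₊, hi⟩
  have c2 := h2 ⟨⌊x * N⌋₊, hi⟩
  simp only at c1 c2
  have t1 := dist_triangle (l x) (l ((⌊x * N⌋₊ : ℝ) / N)) (l' x)
  have t2 := dist_triangle (l ((⌊x * N⌋₊ : ℝ) / N)) (c ⟨⌊x * N⌋₊, hi⟩) (l' x)
  have t3 := dist_triangle (c ⟨⌊x * N⌋₊, hi⟩) (l' ((⌊x * N⌋₊ : ℝ) / N)) (l' x)
  rw [dist_comm (l' x)] at b2
  rw [dist_comm (l' ((⌊x * N⌋₊ : ℝ) / N))] at c2
  linarith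

end NulUnifH94

open NulUnifH94 in
theorem taskNulUnif : TaskNulUnif := by
  intro hone S _ _ _ hS p C
  by_cases hC : 0 ≤ C
  swap
  · refine ⟨0, le_rfl, ?_⟩
    intro l hl h0 h1
    exfalso
    have h2 := hl 0 1
    rw [h0, h1, dist_self] at h2
    apply hC
    simpa using h2
  obtain ⟨m, ι, r, K, ρ, hρ, hι, hr, hri⟩ := id hS
  have hK : (0 : ℝ) ≤ K := K.2
  -- the constants
  obtain ⟨ε, hε, hKε⟩ : ∃ ε : ℝ, 0 < ε ∧ K * ε < ρ := by
    refine ⟨ρ / (2 * (K + 1)), by positivity, ?_⟩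
    rw [← mul_div_assoc, div_lt_iff₀ (by positivity)]
    nlinarith
  obtain ⟨N, hN⟩ := exists_nat_gt (4 * C / ε)
  have hNpos : 0 < N := by
    have : (0 : ℝ) < N := lt_of_le_of_lt (by positivity) hN
    exact_mod_cast this
  have hN' : (0 : ℝ) < N := by exact_mod_cast hNpos
  have hCN : C / N ≤ ε / 4 := by
    rw [div_lt_iff₀ hε] at hN
    rw [div_le_iff₀ hN']
    nlinarith
  -- finite net
  obtain ⟨T, hTf, hT⟩ := Metric.totallyBounded_iff.mp (isCompact_univ (X := S)).totallyBounded (ε / 4)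
    (by positivity)
  have hTfin : Finite T := hTf
  have key : ∀ c : Fin (N + 1) → T, ∃ C1 : ℝ, 0 ≤ C1 ∧ ∀ l : ℝ → S, Lip1 C l → l 0 = p → l 1 = p →
      (∀ i : Fin (N + 1), dist (l ((i : ℕ) / N)) (c i).1 ≤ ε / 4) → Hom p C1 l := by
    intro c
    by_cases hex : ∃ l0 : ℝ → S, Lip1 C l0 ∧ l0 0 = p ∧ l0 1 = p ∧
      (∀ i : Fin (N + 1), dist (l0 ((i : ℕ) / N)) (c i).1 ≤ ε / 4)
    · obtain ⟨l0, k1, k2, k3, k4⟩ := hex
      obtain ⟨C0, K0, hK0⟩ := hone S hS p C l0 k1 k2 k3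
      have hC0 : 0 ≤ C0 := by
        have := hK0.1 0 0 1
        have h6 := dist_nonneg.trans this
        simpa using h6
      refine ⟨K * (K * (C0 + 2 * C)) + K * (K * C0 + K * ε), by positivity, ?_⟩
      intro l hl ha hb hco
      refine perturb ι r K ρ hι hr hri p C ε C0 hC hε.le hKε l l0 hl k1 ha hb k2 k3 ?_ ⟨K0, hK0⟩
      intro x hx0 hx1
      have := close_of_code C (ε / 4) hC N hNpos (fun i => (c i).1) l l0 hl k1 hco k4 x hx0 hx1
      linarith
    · refine ⟨0, le_rfl, ?_⟩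
      intro l hl ha hb hco
      exact absurd ⟨l, hl, ha, hb, hco⟩ hex
  choose C1 hC1 hC1' using key
  have : Fintype (Fin (N + 1) → T) := Fintype.ofFinite _
  refine ⟨∑ c, C1 c, Finset.sum_nonneg (fun c _ => hC1 c), ?_⟩
  intro l hl ha hb
  have hcode : ∀ i : Fin (N + 1), ∃ y : T, dist (l ((i : ℕ) / N)) y.1 ≤ ε / 4 := by
    intro i
    have := hT (Set.mem_univ (l ((i : ℕ) / N)))
    simp only [Set.mem_iUnion, Metric.mem_ball] at this
    obtain ⟨y, hy, hy'⟩ := this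
    exact ⟨⟨y, hy⟩, hy'.le⟩
  choose c hc using hcode
  have h1 := hC1' c l hl ha hb hc
  exact Hom_mono (Finset.single_le_sum (f := C1) (fun c _ => hC1 c) (Finset.mem_univ c)) h1

end Pool.Agent.H261R3.LH
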